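import Pool.Agent.Lib.MP_edb5be_nt.TS.Iface
import Pool.Agent.Lib.MP_edb5be_nt.EQ.EquiZ

/-!
Project TS, module ZVER: the statements DG, LINE, NORMAL, DW for the map `TZ` on the integers, both
signs (`sg d = 1` for `d = true`, `-1` for `d = false`).
-/

set_option autoImplicit false

namespace Pool.Agent.Lib.MP_edb5be_nt.TS

open Finset Filter Topology Pool.Agent.Lib.MP_0a5adf_nt.TP Pool.Agent.Lib.MP_edb5be_nt.ND
  Pool.Agent.Lib.MP_edb5be_nt.ND.H82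

/-- DG on the integers. -/
def DGZStatement : Prop :=
  ∀ (d : Bool) (S : Set ℤ) (y D : ℝ), (∀ x : ℤ, y ≤ |(x : ℝ)| → (x ∈ S ↔ TZ x ∈ S)) →
    HasDens d S D → ∀ g : ℕ → ℝ, Tendsto g atTop atTop →
    Tendsto (fun n : ℕ => Real.log (g n) / √(Real.log n)) atTop (𝓝 0) →
    ∀ (z : ℝ) (j k : ℕ) (a : ℤ), HasDens d {x : ℤ | x ∈ S ∧ x ≡ a [ZMOD 2 ^ j * 3 ^ k] ∧
      ∃ t : ℕ, (t : ℝ) ≤ Real.log |(x : ℝ)| / nu + z * bb * √(Real.log |(x : ℝ)|) ∧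
        |((TZ^[t] x : ℤ) : ℝ)| < g x.natAbs} (D / (2 ^ j * 3 ^ k) * PhiG z)

/-- LINE on the integers. -/
def LineZStatement : Prop :=
  ∀ (d : Bool) (g : ℕ → ℝ), Tendsto g atTop atTop → ∀ ε : ℝ, 0 < ε →
    HasDens d {x : ℤ | ∀ k : ℕ, (∀ j ≤ k, g x.natAbs ≤ |((TZ^[j] x : ℤ) : ℝ)|) →
      |Real.log |((TZ^[k] x : ℤ) : ℝ)| - (Real.log |(x : ℝ)| - nu * k)| ≤
        Real.log |(x : ℝ)| ^ (1 / 2 + ε)} 1

open Classical in
/-- NORMAL on the integers. -/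
def NormalZStatement : Prop :=
  ∀ (d : Bool) (g : ℕ → ℝ), Tendsto g atTop atTop → ∀ (l : ℕ) (a : ℤ) (ε : ℝ), 0 < ε →
    HasDens d {x : ℤ | ∀ k : ℕ, (∀ j < k, g x.natAbs ≤ |((TZ^[j] x : ℤ) : ℝ)|) →
      |((((range k).filter fun j => TZ^[j] x ≡ a [ZMOD 2 ^ l]).card : ℕ) : ℝ) -
        (k : ℝ) / 2 ^ l| ≤ ε * Real.log |(x : ℝ)|} 1

/-- The conditions on the path on the integers: the increments of `log |x|` over the time intervals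
`[s i * log |x|, s (i + 1) * log |x|]`, `i < r`, and the time to reach `W` from the last one. -/
def PathZ (W : Set ℤ) (r : ℕ) (s z : ℕ → ℝ) (x : ℤ) : Prop :=
  (∀ i < r, Real.log |((TZ^[⌊s (i + 1) * Real.log |(x : ℝ)|⌋₊] x : ℤ) : ℝ)| -
      Real.log |((TZ^[⌊s i * Real.log |(x : ℝ)|⌋₊] x : ℤ) : ℝ)| +
      nu * (s (i + 1) - s i) * Real.log |(x : ℝ)| ≤
      z i * (Real.log 3 / 2) * √((s (i + 1) - s i) * Real.log |(x : ℝ)|)) ∧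
  ∃ t : ℕ, (t : ℝ) ≤ ⌊s r * Real.log |(x : ℝ)|⌋₊ +
      Real.log |((TZ^[⌊s r * Real.log |(x : ℝ)|⌋₊] x : ℤ) : ℝ)| / nu +
      z r * bb * √((1 - nu * s r) * Real.log |(x : ℝ)|) ∧ TZ^[t] x ∈ W

/-- DW on the integers. -/
def DWZStatement : Prop :=
  ∀ (d : Bool) (W : Set ℤ) (D : ℝ), W.Finite → HasDens d {x : ℤ | ∃ i : ℕ, TZ^[i] x ∈ W} D →
    ∀ (r : ℕ) (s z : ℕ → ℝ), s 0 = 0 → (∀ i < r, s i < s (i + 1)) → nu * s r < 1 →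
    ∀ (j k : ℕ) (a : ℤ), HasDens d {x : ℤ | x ≡ a [ZMOD 2 ^ j * 3 ^ k] ∧ PathZ W r s z x}
      (D / (2 ^ j * 3 ^ k) * ∏ i ∈ range (r + 1), PhiG (z i))

namespace H32

/-- The class of `sg d * a`, as a natural number. -/
def cl (d : Bool) (a : ℤ) (M : ℕ) : ℕ := ((sg d * a) % (M : ℤ)).toNat

theorem modEq_sg (d : Bool) (n : ℕ) (a : ℤ) (M : ℕ) (hM : 0 < M) :
    sg d * (n : ℤ) ≡ a [ZMOD (M : ℤ)] ↔ n ≡ cl d a M [MOD M] := by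
  have hc' : ((cl d a M : ℕ) : ℤ) = (sg d * a) % (M : ℤ) :=
    Int.toNat_of_nonneg (Int.emod_nonneg _ (by exact_mod_cast hM.ne'))
  rw [← Int.natCast_modEq_iff, hc']
  have hcm : (sg d * a) % (M : ℤ) ≡ sg d * a [ZMOD (M : ℤ)] := Int.mod_modEq _ _
  constructor
  · intro h
    have h2 := h.mul_left (sg d)
    rw [H38.sg_sg] at h2
    exact h2.trans hcm.symm
  · intro h
    have h2 := (h.trans hcm).mul_left (sg d)
    rw [H38.sg_sg] at h2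
    exact h2

theorem modEq_sg' (d : Bool) (n : ℕ) (a : ℤ) (j k : ℕ) :
    sg d * (n : ℤ) ≡ a [ZMOD 2 ^ j * 3 ^ k] ↔
      n ≡ cl d a (2 ^ j * 3 ^ k) [MOD 2 ^ j * 3 ^ k] := by
  rw [← modEq_sg d n a (2 ^ j * 3 ^ k) (by positivity)]
  push_cast
  rfl

theorem natAbs_sg (d : Bool) (n : ℕ) : (sg d * (n : ℤ)).natAbs = n := by
  cases d <;> simp [sg]

theorem invA_of' {d : Bool} {y : ℝ} {S : Set ℤ}
    (hS : ∀ x : ℤ, y ≤ |(x : ℝ)| → (x ∈ S ↔ TZ x ∈ S)) :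
    ∃ lo : ℕ, InvA d {n : ℕ | sg d * (n : ℤ) ∈ S} lo := EQ.invA_of hS

theorem dgz (h : DGStatement) : DGZStatement := by
  intro d S y D hS hD g hg hg' z j k a
  obtain ⟨lo, hlo⟩ := invA_of' (d := d) hS
  have h1 := h d {n : ℕ | sg d * (n : ℤ) ∈ S} lo D hlo (EQ.hasDens_iff.1 hD) g hg hg' z j k
    (cl d a (2 ^ j * 3 ^ k))
  rw [EQ.hasDens_iff]
  have hset : {n : ℕ | sg d * (n : ℤ) ∈ {x : ℤ | x ∈ S ∧ x ≡ a [ZMOD 2 ^ j * 3 ^ k] ∧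
      ∃ t : ℕ, (t : ℝ) ≤ Real.log |(x : ℝ)| / nu + z * bb * √(Real.log |(x : ℝ)|) ∧
        |((TZ^[t] x : ℤ) : ℝ)| < g x.natAbs}} =
      {n : ℕ | n ∈ {n : ℕ | sg d * (n : ℤ) ∈ S} ∧ n ≡ cl d a (2 ^ j * 3 ^ k) [MOD 2 ^ j * 3 ^ k] ∧
      ∃ t : ℕ, (t : ℝ) ≤ thr z n ∧ (((T d)^[t] n : ℕ) : ℝ) < g n} := by
    ext n
    simp only [Set.mem_setOf_eq, modEq_sg', H38.tz_sg_iter, H38.abs_sg, natAbs_sg, thr]
  rw [hset]
  exact h1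

theorem linez (h : LineStatement) : LineZStatement := by
  intro d g hg ε hε
  have h1 := h d g hg ε hε
  rw [EQ.hasDens_iff]
  have hset : {n : ℕ | sg d * (n : ℤ) ∈ {x : ℤ | ∀ k : ℕ,
      (∀ j ≤ k, g x.natAbs ≤ |((TZ^[j] x : ℤ) : ℝ)|) →
      |Real.log |((TZ^[k] x : ℤ) : ℝ)| - (Real.log |(x : ℝ)| - nu * k)| ≤
        Real.log |(x : ℝ)| ^ (1 / 2 + ε)}} =
      {n : ℕ | ∀ k : ℕ, (∀ j ≤ k, g n ≤ (((T d)^[j] n : ℕ) : ℝ)) →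
      |Real.log ((T d)^[k] n) - (Real.log n - nu * k)| ≤ Real.log n ^ (1 / 2 + ε)} := by
    ext n
    simp only [Set.mem_setOf_eq, H38.tz_sg_iter, H38.abs_sg, natAbs_sg]
  rw [hset]
  exact h1

theorem normalz (h : NormalStatement) : NormalZStatement := by
  classical
  intro d g hg l a ε hε
  have h1 := h d g hg l (cl d a (2 ^ l)) ε hε
  rw [EQ.hasDens_iff]
  have hset : {n : ℕ | sg d * (n : ℤ) ∈ {x : ℤ | ∀ k : ℕ,
      (∀ j < k, g x.natAbs ≤ |((TZ^[j] x : ℤ) : ℝ)|) →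
      |((((range k).filter fun j => TZ^[j] x ≡ a [ZMOD 2 ^ l]).card : ℕ) : ℝ) -
        (k : ℝ) / 2 ^ l| ≤ ε * Real.log |(x : ℝ)|}} =
      {n : ℕ | ∀ k : ℕ, (∀ j < k, g n ≤ (((T d)^[j] n : ℕ) : ℝ)) →
      |((((range k).filter fun j => (T d)^[j] n ≡ cl d a (2 ^ l) [MOD 2 ^ l]).card : ℕ) : ℝ) -
        (k : ℝ) / 2 ^ l| ≤ ε * Real.log n} := by
    ext n
    have key : ∀ k : ℕ, ((range k).filter fun j => TZ^[j] (sg d * (n : ℤ)) ≡ a [ZMOD 2 ^ l]) =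
        (range k).filter fun j => (T d)^[j] n ≡ cl d a (2 ^ l) [MOD 2 ^ l] := by
      intro k
      apply Finset.filter_congr
      intro j _
      rw [H38.tz_sg_iter]
      have := modEq_sg d ((T d)^[j] n) a (2 ^ l) (by positivity)
      rw [← this]
      push_cast
      rfl
    simp only [Set.mem_setOf_eq, key]
    simp only [H38.tz_sg_iter, H38.abs_sg, natAbs_sg]
  rw [hset]
  exact h1

theorem pathZ_sg (d : Bool) (W : Set ℤ) (r : ℕ) (s z : ℕ → ℝ) (n : ℕ) :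
    PathZ W r s z (sg d * (n : ℤ)) ↔ PathC d {m : ℕ | sg d * (m : ℤ) ∈ W} r s z n := by
  unfold PathZ PathC
  simp only [H38.tz_sg_iter, H38.abs_sg, Set.mem_setOf_eq]

theorem dwz (h : DWStatement) : DWZStatement := by
  intro d W D hW hD r s z h0 h1 h2 j k a
  have hW' : {m : ℕ | sg d * (m : ℤ) ∈ W}.Finite := hW.preimage (H38.sg_inj d).injOn
  have hD' : HasDensN (Hit d {m : ℕ | sg d * (m : ℤ) ∈ W}) D := by
    have h3 := EQ.hasDens_iff.1 hD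
    have hset : {n : ℕ | sg d * (n : ℤ) ∈ {x : ℤ | ∃ i : ℕ, TZ^[i] x ∈ W}} =
        Hit d {m : ℕ | sg d * (m : ℤ) ∈ W} := by
      ext n
      simp only [Set.mem_setOf_eq, H38.tz_sg_iter, Hit]
    rwa [hset] at h3
  have h4 := h d _ D hW' hD' r s z h0 h1 h2 j k (cl d a (2 ^ j * 3 ^ k))
  rw [EQ.hasDens_iff]
  have hset : {n : ℕ | sg d * (n : ℤ) ∈ {x : ℤ | x ≡ a [ZMOD 2 ^ j * 3 ^ k] ∧
      PathZ W r s z x}} = {n : ℕ | n ≡ cl d a (2 ^ j * 3 ^ k) [MOD 2 ^ j * 3 ^ k] ∧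
        PathC d {m : ℕ | sg d * (m : ℤ) ∈ W} r s z n} := by
    ext n
    simp only [Set.mem_setOf_eq, modEq_sg', pathZ_sg]
  rw [hset]
  exact h4

end H32

end Pool.Agent.Lib.MP_edb5be_nt.TS
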