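import Pool.Agent.Lib.MP_edb5be_nt.TS.Iface2
import Pool.Agent.Lib.MP_edb5be_nt.TS.H32.Zver

/-!
Project TS, module ZVER2: the statements DWM, LINES, NORMALS for the map `TZ` on the integers, both
signs.
-/

set_option autoImplicit false

namespace Pool.Agent.Lib.MP_edb5be_nt.TS

open Finset Filter Topology Pool.Agent.Lib.MP_0a5adf_nt.TP Pool.Agent.Lib.MP_edb5be_nt.ND
  Pool.Agent.Lib.MP_edb5be_nt.ND.H82

/-- `k` is the time of the first visit of the trajectory of `x` to `W`. -/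
def FirstZ (W : Set ℤ) (x : ℤ) (k : ℕ) : Prop := TZ^[k] x ∈ W ∧ ∀ i < k, TZ^[i] x ∉ W

/-- The conditions on the path on the integers, with the time of the first visit to `W`. -/
def PathMZ (W : Set ℤ) (m c r : ℕ) (s z : ℕ → ℝ) (x : ℤ) : Prop :=
  (∀ i < r, Real.log |((TZ^[⌊s (i + 1) * Real.log |(x : ℝ)|⌋₊] x : ℤ) : ℝ)| -
      Real.log |((TZ^[⌊s i * Real.log |(x : ℝ)|⌋₊] x : ℤ) : ℝ)| +
      nu * (s (i + 1) - s i) * Real.log |(x : ℝ)| ≤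
      z i * (Real.log 3 / 2) * √((s (i + 1) - s i) * Real.log |(x : ℝ)|)) ∧
  ∃ t : ℕ, (t : ℝ) ≤ ⌊s r * Real.log |(x : ℝ)|⌋₊ +
      Real.log |((TZ^[⌊s r * Real.log |(x : ℝ)|⌋₊] x : ℤ) : ℝ)| / nu +
      z r * bb * √((1 - nu * s r) * Real.log |(x : ℝ)|) ∧ FirstZ W x t ∧ t ≡ c [MOD m]

/-- DWM on the integers. -/
def DWMZStatement : Prop :=
  ∀ (d : Bool) (W : Set ℤ) (D : ℝ), W.Finite → HasDens d {x : ℤ | ∃ i : ℕ, TZ^[i] x ∈ W} D →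
    ∀ m : ℕ, 0 < m → ∀ (c j k : ℕ) (a : ℤ),
      HasDens d {x : ℤ | x ≡ a [ZMOD 2 ^ j * 3 ^ k] ∧ ∃ t : ℕ, FirstZ W x t ∧ t ≡ c [MOD m]}
        (D / (m * 2 ^ j * 3 ^ k)) ∧
      ∀ (r : ℕ) (s z : ℕ → ℝ), s 0 = 0 → (∀ i < r, s i < s (i + 1)) → nu * s r < 1 →
        HasDens d {x : ℤ | x ≡ a [ZMOD 2 ^ j * 3 ^ k] ∧ PathMZ W m c r s z x}
          (D / (m * 2 ^ j * 3 ^ k) * ∏ i ∈ range (r + 1), PhiG (z i))

/-- LINES on the integers. -/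
def LineSZStatement : Prop :=
  ∀ (d : Bool) (g ψ : ℕ → ℝ), Tendsto g atTop atTop → Tendsto ψ atTop atTop →
    HasDens d {x : ℤ | ∀ k : ℕ, (∀ j ≤ k, g x.natAbs ≤ |((TZ^[j] x : ℤ) : ℝ)|) →
      |Real.log |((TZ^[k] x : ℤ) : ℝ)| - (Real.log |(x : ℝ)| - nu * k)| ≤
        ψ x.natAbs * √(Real.log |(x : ℝ)|)} 1

open Classical in
/-- NORMALS on the integers. -/
def NormalSZStatement : Prop :=
  ∀ (d : Bool) (g ψ : ℕ → ℝ), Tendsto g atTop atTop → Tendsto ψ atTop atTop →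
    ∀ (l : ℕ) (a : ℤ),
    HasDens d {x : ℤ | ∀ k : ℕ, (∀ j < k, g x.natAbs ≤ |((TZ^[j] x : ℤ) : ℝ)|) →
      |((((range k).filter fun j => TZ^[j] x ≡ a [ZMOD 2 ^ l]).card : ℕ) : ℝ) -
        (k : ℝ) / 2 ^ l| ≤ ψ x.natAbs * √(Real.log |(x : ℝ)|)} 1

namespace H32

theorem firstZ_sg (d : Bool) (W : Set ℤ) (n k : ℕ) :
    FirstZ W (sg d * (n : ℤ)) k ↔ First d {m : ℕ | sg d * (m : ℤ) ∈ W} n k := by
  unfold FirstZ First
  simp only [H38.tz_sg_iter, Set.mem_setOf_eq]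

theorem pathMZ_sg (d : Bool) (W : Set ℤ) (m c r : ℕ) (s z : ℕ → ℝ) (n : ℕ) :
    PathMZ W m c r s z (sg d * (n : ℤ)) ↔
      PathCM d {m : ℕ | sg d * (m : ℤ) ∈ W} m c r s z n := by
  unfold PathMZ PathCM
  simp only [firstZ_sg]
  simp only [H38.tz_sg_iter, H38.abs_sg]

theorem dwmz (h : DWMStatement) : DWMZStatement := by
  intro d W D hW hD m hm c j k a
  have hW' : {m : ℕ | sg d * (m : ℤ) ∈ W}.Finite := hW.preimage (H38.sg_inj d).injOn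
  have hD' : HasDensN (Hit d {m : ℕ | sg d * (m : ℤ) ∈ W}) D := by
    have h3 := EQ.hasDens_iff.1 hD
    have hset : {n : ℕ | sg d * (n : ℤ) ∈ {x : ℤ | ∃ i : ℕ, TZ^[i] x ∈ W}} =
        Hit d {m : ℕ | sg d * (m : ℤ) ∈ W} := by
      ext n
      simp only [Set.mem_setOf_eq, H38.tz_sg_iter, Hit]
    rwa [hset] at h3
  obtain ⟨h4, h5⟩ := h d _ D hW' hD' m hm c j k (cl d a (2 ^ j * 3 ^ k))
  refine ⟨?_, ?_⟩
  · rw [EQ.hasDens_iff]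
    have hset : {n : ℕ | sg d * (n : ℤ) ∈ {x : ℤ | x ≡ a [ZMOD 2 ^ j * 3 ^ k] ∧
        ∃ t : ℕ, FirstZ W x t ∧ t ≡ c [MOD m]}} =
        {n : ℕ | n ≡ cl d a (2 ^ j * 3 ^ k) [MOD 2 ^ j * 3 ^ k] ∧
          ∃ t : ℕ, First d {m : ℕ | sg d * (m : ℤ) ∈ W} n t ∧ t ≡ c [MOD m]} := by
      ext n
      simp only [Set.mem_setOf_eq, modEq_sg', firstZ_sg]
    rw [hset]
    exact h4
  · intro r s z h0 h1 h2
    rw [EQ.hasDens_iff]
    have hset : {n : ℕ | sg d * (n : ℤ) ∈ {x : ℤ | x ≡ a [ZMOD 2 ^ j * 3 ^ k] ∧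
        PathMZ W m c r s z x}} = {n : ℕ | n ≡ cl d a (2 ^ j * 3 ^ k) [MOD 2 ^ j * 3 ^ k] ∧
          PathCM d {m : ℕ | sg d * (m : ℤ) ∈ W} m c r s z n} := by
      ext n
      simp only [Set.mem_setOf_eq, modEq_sg', pathMZ_sg]
    rw [hset]
    exact h5 r s z h0 h1 h2

theorem linesz (h : LineSStatement) : LineSZStatement := by
  intro d g ψ hg hψ
  have h1 := h d g ψ hg hψ
  rw [EQ.hasDens_iff]
  have hset : {n : ℕ | sg d * (n : ℤ) ∈ {x : ℤ | ∀ k : ℕ,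
      (∀ j ≤ k, g x.natAbs ≤ |((TZ^[j] x : ℤ) : ℝ)|) →
      |Real.log |((TZ^[k] x : ℤ) : ℝ)| - (Real.log |(x : ℝ)| - nu * k)| ≤
        ψ x.natAbs * √(Real.log |(x : ℝ)|)}} =
      {n : ℕ | ∀ k : ℕ, (∀ j ≤ k, g n ≤ (((T d)^[j] n : ℕ) : ℝ)) →
      |Real.log ((T d)^[k] n) - (Real.log n - nu * k)| ≤ ψ n * √(Real.log n)} := by
    ext n
    simp only [Set.mem_setOf_eq, H38.tz_sg_iter, H38.abs_sg, natAbs_sg]
  rw [hset]
  exact h1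

theorem normalsz (h : NormalSStatement) : NormalSZStatement := by
  classical
  intro d g ψ hg hψ l a
  have h1 := h d g ψ hg hψ l (cl d a (2 ^ l))
  rw [EQ.hasDens_iff]
  have hset : {n : ℕ | sg d * (n : ℤ) ∈ {x : ℤ | ∀ k : ℕ,
      (∀ j < k, g x.natAbs ≤ |((TZ^[j] x : ℤ) : ℝ)|) →
      |((((range k).filter fun j => TZ^[j] x ≡ a [ZMOD 2 ^ l]).card : ℕ) : ℝ) -
        (k : ℝ) / 2 ^ l| ≤ ψ x.natAbs * √(Real.log |(x : ℝ)|)}} =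
      {n : ℕ | ∀ k : ℕ, (∀ j < k, g n ≤ (((T d)^[j] n : ℕ) : ℝ)) →
      |((((range k).filter fun j => (T d)^[j] n ≡ cl d a (2 ^ l) [MOD 2 ^ l]).card : ℕ) : ℝ) -
        (k : ℝ) / 2 ^ l| ≤ ψ n * √(Real.log n)} := by
    ext n
    have key : ∀ k : ℕ, ((range k).filter fun j => TZ^[j] (sg d * (n : ℤ)) ≡ a [ZMOD 2 ^ l]) =
        (range k).filter fun j => (T d)^[j] n ≡ cl d a (2 ^ l) [MOD 2 ^ l] := by
      intro k
      apply Finset.filter_congr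
      intro j _
      rw [H38.tz_sg_iter]
      have := modEq_sg d ((T d)^[j] n) a (2 ^ l) (by positivity)
      rw [← this]
      push_cast
      rfl
    simp only [Set.mem_setOf_eq, key]
    simp only [H38.tz_sg_iter, H38.abs_sg, natAbs_sg]
  rw [hset]
  exact h1

end H32

end Pool.Agent.Lib.MP_edb5be_nt.TS
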