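import Pool.Agent.Lib.MP_edb5be_nt.TS.Iface3
import Pool.Agent.Lib.MP_edb5be_nt.TS.H32.Zver2

/-!
Project TS, module ZVER3 (row S13): the statement DWS for the map `TZ` on the integers, both signs.
-/

set_option autoImplicit false

namespace Pool.Agent.Lib.MP_edb5be_nt.TS

open Finset Filter Topology Pool.Agent.Lib.MP_0a5adf_nt.TP Pool.Agent.Lib.MP_edb5be_nt.ND
  Pool.Agent.Lib.MP_edb5be_nt.ND.H82

/-- The conditions on the path on the integers: the increments of `log |x|` over the time intervals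
`[s i * log |x|, s (i + 1) * log |x|]`, `i < r`, and the time to fall below `g |x|`. -/
def PathSZ (g : ℕ → ℝ) (r : ℕ) (s z : ℕ → ℝ) (x : ℤ) : Prop :=
  (∀ i < r, Real.log |((TZ^[⌊s (i + 1) * Real.log |(x : ℝ)|⌋₊] x : ℤ) : ℝ)| -
      Real.log |((TZ^[⌊s i * Real.log |(x : ℝ)|⌋₊] x : ℤ) : ℝ)| +
      nu * (s (i + 1) - s i) * Real.log |(x : ℝ)| ≤
      z i * (Real.log 3 / 2) * √((s (i + 1) - s i) * Real.log |(x : ℝ)|)) ∧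
  ∃ t : ℕ, (t : ℝ) ≤ ⌊s r * Real.log |(x : ℝ)|⌋₊ +
      Real.log |((TZ^[⌊s r * Real.log |(x : ℝ)|⌋₊] x : ℤ) : ℝ)| / nu +
      z r * bb * √((1 - nu * s r) * Real.log |(x : ℝ)|) ∧
      |((TZ^[t] x : ℤ) : ℝ)| < g x.natAbs

/-- DWS on the integers. -/
def DWSZStatement : Prop :=
  ∀ (d : Bool) (S : Set ℤ) (y D : ℝ), (∀ x : ℤ, y ≤ |(x : ℝ)| → (x ∈ S ↔ TZ x ∈ S)) →
    HasDens d S D → ∀ g : ℕ → ℝ, Tendsto g atTop atTop →
    Tendsto (fun n : ℕ => Real.log (g n) / √(Real.log n)) atTop (𝓝 0) →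
    ∀ (r : ℕ) (s z : ℕ → ℝ), s 0 = 0 → (∀ i < r, s i < s (i + 1)) → nu * s r < 1 →
    ∀ (j k : ℕ) (a : ℤ), HasDens d {x : ℤ | x ∈ S ∧ x ≡ a [ZMOD 2 ^ j * 3 ^ k] ∧
      PathSZ g r s z x} (D / (2 ^ j * 3 ^ k) * ∏ i ∈ range (r + 1), PhiG (z i))

namespace H32

theorem pathSZ_sg (d : Bool) (g : ℕ → ℝ) (r : ℕ) (s z : ℕ → ℝ) (n : ℕ) :
    PathSZ g r s z (sg d * (n : ℤ)) ↔ PathCS d g r s z n := by
  unfold PathSZ PathCS
  simp only [H38.tz_sg_iter, H38.abs_sg, natAbs_sg]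

theorem dwsz (h : DWSStatement) : DWSZStatement := by
  intro d S y D hS hD g hg hg' r s z h0 h1 h2 j k a
  obtain ⟨lo, hlo⟩ := invA_of' (d := d) hS
  have h4 := h d {n : ℕ | sg d * (n : ℤ) ∈ S} lo D hlo (EQ.hasDens_iff.1 hD) g hg hg' r s z
    h0 h1 h2 j k (cl d a (2 ^ j * 3 ^ k))
  rw [EQ.hasDens_iff]
  have hset : {n : ℕ | sg d * (n : ℤ) ∈ {x : ℤ | x ∈ S ∧ x ≡ a [ZMOD 2 ^ j * 3 ^ k] ∧
      PathSZ g r s z x}} =
      {n : ℕ | n ∈ {n : ℕ | sg d * (n : ℤ) ∈ S} ∧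
        n ≡ cl d a (2 ^ j * 3 ^ k) [MOD 2 ^ j * 3 ^ k] ∧ PathCS d g r s z n} := by
    ext n
    simp only [Set.mem_setOf_eq, modEq_sg', pathSZ_sg]
  rw [hset]
  exact h4

end H32

end Pool.Agent.Lib.MP_edb5be_nt.TS
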